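import Mathlib

set_option autoImplicit false

/-!
The parametric simplex path (deterministic part).
-/

namespace Pool.Agent.H.MP_0cad2f_co.h39

open Finset

variable {n d : ℕ}

/-- `e` is the dual basis of the `a m`, `m ∈ I`. -/
structure IsDual (a : Fin n → Fin d → ℝ) (I : Finset (Fin n)) (e : Fin n → Fin d → ℝ) : Prop where
  dual : ∀ k ∈ I, ∀ m ∈ I, a k ⬝ᵥ e m = if k = m then 1 else 0
  span : ∀ v, v = ∑ m ∈ I, (v ⬝ᵥ e m) • a m

theorem IsDual.dot {a : Fin n → Fin d → ℝ} {I : Finset (Fin n)} {e : Fin n → Fin d → ℝ}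
    (h : IsDual a I e) (v x : Fin d → ℝ) : v ⬝ᵥ x = ∑ m ∈ I, (v ⬝ᵥ e m) * (a m ⬝ᵥ x) := by
  conv_lhs => rw [h.span v]
  rw [sum_dotProduct]
  exact Finset.sum_congr rfl fun m _ => by rw [smul_dotProduct, smul_eq_mul]

theorem IsDual.expand {a : Fin n → Fin d → ℝ} {I : Finset (Fin n)} {e : Fin n → Fin d → ℝ}
    (h : IsDual a I e) (x : Fin d → ℝ) : x = ∑ m ∈ I, (a m ⬝ᵥ x) • e m := by
  have h1 : ∀ v : Fin d → ℝ, v ⬝ᵥ x = v ⬝ᵥ ∑ m ∈ I, (a m ⬝ᵥ x) • e m := by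
    intro v
    rw [h.dot v x, dotProduct_sum]
    exact Finset.sum_congr rfl fun m _ => by rw [dotProduct_smul, smul_eq_mul, mul_comm]
  funext j
  have h2 := h1 (Pi.single j 1)
  simpa using h2

theorem IsDual.unique {a : Fin n → Fin d → ℝ} {I : Finset (Fin n)} {e e' : Fin n → Fin d → ℝ}
    (h : IsDual a I e) (h' : IsDual a I e') {m : Fin n} (hm : m ∈ I) : e m = e' m := by
  rw [h'.expand (e m)]
  rw [Finset.sum_congr rfl (g := fun k => if k = m then e' k else 0)]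
  · simp [hm]
  · intro k hk
    rw [h.dual k hk m hm]
    split_ifs with hkm
    · rw [one_smul]
    · rw [zero_smul]

/-- the `a m`, `m ∈ I`, are a basis. -/
def HasDual (a : Fin n → Fin d → ℝ) (I : Finset (Fin n)) : Prop := ∃ e, IsDual a I e

open Classical in
/-- the dual basis. -/
noncomputable def ee (a : Fin n → Fin d → ℝ) (I : Finset (Fin n)) : Fin n → Fin d → ℝ :=
  if h : HasDual a I then h.choose else 0

theorem HasDual.isDual {a : Fin n → Fin d → ℝ} {I : Finset (Fin n)} (h : HasDual a I) :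
    IsDual a I (ee a I) := by
  rw [ee, dif_pos h]
  exact h.choose_spec

theorem IsDual.ee_eq {a : Fin n → Fin d → ℝ} {I : Finset (Fin n)} {e : Fin n → Fin d → ℝ}
    (h : IsDual a I e) {m : Fin n} (hm : m ∈ I) : ee a I m = e m :=
  (HasDual.isDual ⟨e, h⟩).unique h hm

/-- the point of the basis `I`. -/
noncomputable def xx (a : Fin n → Fin d → ℝ) (I : Finset (Fin n)) : Fin d → ℝ := ∑ m ∈ I, ee a I m

theorem dot_xx {a : Fin n → Fin d → ℝ} {I : Finset (Fin n)} (h : HasDual a I) {k : Fin n}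
    (hk : k ∈ I) : a k ⬝ᵥ xx a I = 1 := by
  rw [xx, dotProduct_sum, Finset.sum_congr rfl fun m hm => h.isDual.dual k hk m hm]
  simp [hk]

/-- `I` is a vertex of `P = {x : a i ⬝ᵥ x ≤ 1}`. -/
def IsV (a : Fin n → Fin d → ℝ) (I : Finset (Fin n)) : Prop :=
  HasDual a I ∧ ∀ i, a i ⬝ᵥ xx a I ≤ 1

/-- Genericity: no other constraint is tight at `x_I`. -/
def Gen (a : Fin n → Fin d → ℝ) : Prop :=
  ∀ I, HasDual a I → ∀ i, i ∉ I → a i ⬝ᵥ xx a I ≠ 1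

/-- The graph of the bases. -/
def baseGraph (a : Fin n → Fin d → ℝ) : SimpleGraph (Finset (Fin n)) where
  Adj I I' := IsV a I ∧ IsV a I' ∧ I ≠ I' ∧ (I ∩ I').card + 1 = I.card ∧ I.card = I'.card
  symm := ⟨by
    intro I I' h
    refine ⟨h.2.1, h.1, h.2.2.1.symm, ?_, h.2.2.2.2.symm⟩
    rw [inter_comm, h.2.2.2.1, h.2.2.2.2]⟩
  loopless := ⟨fun I h => h.2.2.1 rfl⟩

/-- the parameter of the pair `(I, i)`. -/
noncomputable def lam (a : Fin n → Fin d → ℝ) (q c : Fin d → ℝ) (I : Finset (Fin n)) (i : Fin n) : ℝ :=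
  (q ⬝ᵥ ee a I i) / (-(c ⬝ᵥ ee a I i))

/-- the pairs `(I, i)` such that the ray `q + lam c` leaves the cone of `I` through the relative
interior of the cone of `I \ {i}`. -/
def FF (a : Fin n → Fin d → ℝ) (q c : Fin d → ℝ) : Set (Finset (Fin n) × Fin n) :=
  {p | IsV a p.1 ∧ p.2 ∈ p.1 ∧ 0 < q ⬝ᵥ ee a p.1 p.2 ∧ c ⬝ᵥ ee a p.1 p.2 < 0 ∧
    ∀ m ∈ p.1, m ≠ p.2 → 0 < (q + lam a q c p.1 p.2 • c) ⬝ᵥ ee a p.1 m}

/-- The new dual basis after the exchange of `i₁` and `i₂`. -/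
theorem isDual_pivot {a : Fin n → Fin d → ℝ} {I : Finset (Fin n)} (hI : HasDual a I) {i₁ i₂ : Fin n}
    (h₁ : i₁ ∈ I) (h₂ : i₂ ∉ I) (hne : a i₂ ⬝ᵥ ee a I i₁ ≠ 0) :
    IsDual a (insert i₂ (I.erase i₁)) (fun m => if m = i₂ then (a i₂ ⬝ᵥ ee a I i₁)⁻¹ • ee a I i₁
      else ee a I m - ((a i₂ ⬝ᵥ ee a I m) / (a i₂ ⬝ᵥ ee a I i₁)) • ee a I i₁) := by
  have hD := hI.isDual
  set t := a i₂ ⬝ᵥ ee a I i₁ with ht
  have h21 : i₂ ≠ i₁ := fun h => h₂ (h ▸ h₁)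
  have hmem : ∀ m, m ∈ I.erase i₁ → m ≠ i₂ := fun m hm h => h₂ (h ▸ mem_of_mem_erase hm)
  refine ⟨?_, ?_⟩
  · intro k hk m hm
    rw [mem_insert] at hk hm
    by_cases hm2 : m = i₂
    · subst hm2
      rw [if_pos rfl, dotProduct_smul, smul_eq_mul]
      by_cases hk2 : k = m
      · subst hk2
        rw [if_pos rfl, ← ht]
        exact inv_mul_cancel₀ hne
      · rw [if_neg hk2]
        have hk' : k ∈ I.erase i₁ := hk.resolve_left hk2
        rw [hD.dual k (mem_of_mem_erase hk') i₁ h₁, if_neg (ne_of_mem_erase hk'), mul_zero]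
    · rw [if_neg hm2, dotProduct_sub, dotProduct_smul, smul_eq_mul]
      have hm' : m ∈ I.erase i₁ := hm.resolve_left hm2
      by_cases hk2 : k = i₂
      · subst hk2
        rw [if_neg (Ne.symm hm2), ← ht, div_mul_cancel₀ _ hne, sub_self]
      · have hk' : k ∈ I.erase i₁ := hk.resolve_left hk2
        rw [hD.dual k (mem_of_mem_erase hk') i₁ h₁, if_neg (ne_of_mem_erase hk'), mul_zero, sub_zero,
          hD.dual k (mem_of_mem_erase hk') m (mem_of_mem_erase hm')]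
  · intro v
    have h2 : i₂ ∉ I.erase i₁ := fun h => h₂ (mem_of_mem_erase h)
    rw [sum_insert h2, if_pos rfl, dotProduct_smul, smul_eq_mul]
    have hs : ∑ m ∈ I.erase i₁, (v ⬝ᵥ (if m = i₂ then t⁻¹ • ee a I i₁
        else ee a I m - ((a i₂ ⬝ᵥ ee a I m) / t) • ee a I i₁)) • a m
        = ∑ m ∈ I.erase i₁, (v ⬝ᵥ ee a I m) • a m
          - (t⁻¹ * (v ⬝ᵥ ee a I i₁)) • ∑ m ∈ I.erase i₁, (a i₂ ⬝ᵥ ee a I m) • a m := by
      rw [smul_sum, ← sum_sub_distrib]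
      refine sum_congr rfl fun m hm => ?_
      rw [if_neg (hmem m hm), dotProduct_sub, dotProduct_smul, smul_eq_mul, smul_smul, ← sub_smul]
      congr 1
      ring
    rw [hs]
    have e1 := hD.span v
    have e2 := hD.span (a i₂)
    rw [← add_sum_erase I _ h₁] at e1 e2
    have e3 : ∑ m ∈ I.erase i₁, (a i₂ ⬝ᵥ ee a I m) • a m = a i₂ - t • a i₁ := by
      rw [eq_sub_iff_add_eq, add_comm]
      exact e2.symm
    have e4 : ∑ m ∈ I.erase i₁, (v ⬝ᵥ ee a I m) • a m = v - (v ⬝ᵥ ee a I i₁) • a i₁ := by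
      rw [eq_sub_iff_add_eq, add_comm]
      exact e1.symm
    rw [e3, e4, smul_sub, smul_smul]
    have h5 : t⁻¹ * (v ⬝ᵥ ee a I i₁) * t = v ⬝ᵥ ee a I i₁ := by
      rw [mul_right_comm, inv_mul_cancel₀ hne, one_mul]
    rw [h5]
    abel

/-- The pivot step: along the edge `-e_{i₁}` at the vertex `I` there is a next vertex. -/
theorem exists_pivot {a : Fin n → Fin d → ℝ} {I : Finset (Fin n)} (hI : IsV a I)
    {i₁ : Fin n} (h₁ : i₁ ∈ I) {w : Fin n → ℝ} (hw : ∀ i, 0 < w i)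
    (hc : (∑ i, w i • a i) ⬝ᵥ ee a I i₁ < 0) :
    ∃ i₂, i₂ ∉ I ∧ a i₂ ⬝ᵥ ee a I i₁ < 0 ∧ IsV a (insert i₂ (I.erase i₁)) ∧
      xx a (insert i₂ (I.erase i₁)) = xx a I -
        ((1 - a i₂ ⬝ᵥ xx a I) / (-(a i₂ ⬝ᵥ ee a I i₁))) • ee a I i₁ := by
  classical
  have hD := hI.1.isDual
  set S : Finset (Fin n) := univ.filter fun i => a i ⬝ᵥ ee a I i₁ < 0 with hS
  have hSne : S.Nonempty := by
    by_contra hcon
    rw [not_nonempty_iff_eq_empty, hS, filter_eq_empty_iff] at hcon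
    have h0 : 0 ≤ (∑ i, w i • a i) ⬝ᵥ ee a I i₁ := by
      rw [sum_dotProduct]
      refine sum_nonneg fun i _ => ?_
      rw [smul_dotProduct, smul_eq_mul]
      exact mul_nonneg (hw i).le (not_lt.1 (hcon (mem_univ i)))
    linarith
  obtain ⟨i₂, h2S, hmin⟩ := exists_min_image S
    (fun i => (1 - a i ⬝ᵥ xx a I) / (-(a i ⬝ᵥ ee a I i₁))) hSne
  have hneg : a i₂ ⬝ᵥ ee a I i₁ < 0 := (mem_filter.1 h2S).2
  have h2I : i₂ ∉ I := by
    intro h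
    have h3 := hD.dual i₂ h i₁ h₁
    split_ifs at h3 with h4
    · rw [h3] at hneg
      linarith
    · rw [h3] at hneg
      exact lt_irrefl 0 hneg
  have hne : a i₂ ⬝ᵥ ee a I i₁ ≠ 0 := ne_of_lt hneg
  have hP := isDual_pivot hI.1 h₁ h2I hne
  set τ : ℝ := (1 - a i₂ ⬝ᵥ xx a I) / (-(a i₂ ⬝ᵥ ee a I i₁)) with hτ
  have h2 : i₂ ∉ I.erase i₁ := fun h => h2I (mem_of_mem_erase h)
  have hx : xx a (insert i₂ (I.erase i₁)) = xx a I - τ • ee a I i₁ := by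
    have hxI : xx a I = ee a I i₁ + ∑ m ∈ I.erase i₁, ee a I m := by
      rw [xx, add_sum_erase I _ h₁]
    have hax : a i₂ ⬝ᵥ xx a I = a i₂ ⬝ᵥ ee a I i₁ + ∑ m ∈ I.erase i₁, a i₂ ⬝ᵥ ee a I m := by
      rw [hxI, dotProduct_add, dotProduct_sum]
    have h5 : xx a (insert i₂ (I.erase i₁)) = (a i₂ ⬝ᵥ ee a I i₁)⁻¹ • ee a I i₁
        + ∑ m ∈ I.erase i₁, (ee a I m - ((a i₂ ⬝ᵥ ee a I m) / (a i₂ ⬝ᵥ ee a I i₁)) • ee a I i₁) := by
      rw [xx, sum_insert h2, hP.ee_eq (mem_insert_self _ _), if_pos rfl]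
      congr 1
      refine sum_congr rfl fun m hm => ?_
      rw [hP.ee_eq (mem_insert_of_mem hm), if_neg]
      rintro rfl
      exact h2 hm
    rw [h5, sum_sub_distrib, ← sum_smul, ← sum_div]
    have h6 : ∑ m ∈ I.erase i₁, a i₂ ⬝ᵥ ee a I m = a i₂ ⬝ᵥ xx a I - a i₂ ⬝ᵥ ee a I i₁ := by
      rw [hax]
      ring
    have h7 : ∑ m ∈ I.erase i₁, ee a I m = xx a I - ee a I i₁ := by
      rw [hxI]
      abel
    rw [h6, h7]
    have h8 : (a i₂ ⬝ᵥ ee a I i₁)⁻¹ - 1 - (a i₂ ⬝ᵥ xx a I - a i₂ ⬝ᵥ ee a I i₁) / (a i₂ ⬝ᵥ ee a I i₁)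
        = -τ := by
      rw [hτ]
      field_simp
      ring
    have h9 : (a i₂ ⬝ᵥ ee a I i₁)⁻¹ • ee a I i₁ + (xx a I - ee a I i₁
        - ((a i₂ ⬝ᵥ xx a I - a i₂ ⬝ᵥ ee a I i₁) / (a i₂ ⬝ᵥ ee a I i₁)) • ee a I i₁)
        = xx a I + ((a i₂ ⬝ᵥ ee a I i₁)⁻¹ - 1
          - (a i₂ ⬝ᵥ xx a I - a i₂ ⬝ᵥ ee a I i₁) / (a i₂ ⬝ᵥ ee a I i₁)) • ee a I i₁ := by
      rw [sub_smul, sub_smul, one_smul]
      abel
    rw [h9, h8, neg_smul, ← sub_eq_add_neg]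
  refine ⟨i₂, h2I, hneg, ⟨⟨_, hP⟩, fun i => ?_⟩, hx⟩
  rw [hx, dotProduct_sub, dotProduct_smul, smul_eq_mul]
  by_cases hi : a i ⬝ᵥ ee a I i₁ < 0
  · have h10 := hmin i (mem_filter.2 ⟨mem_univ i, hi⟩)
    have h11 : τ * (-(a i ⬝ᵥ ee a I i₁)) ≤ 1 - a i ⬝ᵥ xx a I := by
      have hp : 0 < -(a i ⬝ᵥ ee a I i₁) := by linarith
      exact (le_div_iff₀ hp).1 h10
    linarith
  · have h12 : 0 ≤ τ := by
      rw [hτ]
      refine div_nonneg ?_ (by linarith)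
      have := hI.2 i₂
      linarith
    have h13 : 0 ≤ τ * (a i ⬝ᵥ ee a I i₁) := mul_nonneg h12 (not_lt.1 hi)
    have := hI.2 i
    linarith

theorem adj_pivot {a : Fin n → Fin d → ℝ} {I : Finset (Fin n)} {i₁ i₂ : Fin n} (hI : IsV a I)
    (hI' : IsV a (insert i₂ (I.erase i₁))) (h₁ : i₁ ∈ I) (h₂ : i₂ ∉ I) :
    (baseGraph a).Adj I (insert i₂ (I.erase i₁)) := by
  have h2 : i₂ ∉ I.erase i₁ := fun h => h₂ (mem_of_mem_erase h)
  have hcard : (insert i₂ (I.erase i₁)).card = I.card := by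
    rw [card_insert_of_notMem h2, card_erase_of_mem h₁]
    have := card_pos.2 ⟨i₁, h₁⟩
    omega
  have hint : I ∩ insert i₂ (I.erase i₁) = I.erase i₁ := by
    ext m
    simp only [mem_inter, mem_insert, mem_erase]
    constructor
    · rintro ⟨hm, rfl | h⟩
      · exact absurd hm h₂
      · exact h
    · intro h
      exact ⟨h.2, Or.inr h⟩
  refine ⟨hI, hI', ?_, ?_, hcard.symm⟩
  · intro h
    exact h₂ (h ▸ mem_insert_self _ _)
  · rw [hint, card_erase_of_mem h₁]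
    have := card_pos.2 ⟨i₁, h₁⟩
    omega

/-- no ties in the ratio test for the parameter. -/
def NoTie (a : Fin n → Fin d → ℝ) (q c : Fin d → ℝ) : Prop :=
  ∀ I, IsV a I → ∀ i ∈ I, ∀ m ∈ I, i ≠ m → c ⬝ᵥ ee a I i < 0 → c ⬝ᵥ ee a I m < 0 →
    lam a q c I i ≠ lam a q c I m

/-- One step of the parametric simplex path. -/
theorem path_step {a : Fin n → Fin d → ℝ} {w : Fin n → ℝ} (hw : ∀ i, 0 < w i)
    {q c : Fin d → ℝ} (hc : c = ∑ i, w i • a i) (ht : NoTie a q c) {I : Finset (Fin n)}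
    (hI : IsV a I) {l : ℝ} (hl : 0 ≤ l)
    (hinv : ∀ m ∈ I, 0 ≤ (q + l • c) ⬝ᵥ ee a I m ∧
        ((q + l • c) ⬝ᵥ ee a I m = 0 → 0 < c ⬝ᵥ ee a I m))
    (hnot : ¬ ∀ m ∈ I, 0 ≤ c ⬝ᵥ ee a I m) :
    ∃ i₁, (I, i₁) ∈ FF a q c ∧ l < lam a q c I i₁ ∧ ∃ I', (baseGraph a).Adj I I' ∧
      ∀ m ∈ I', 0 ≤ (q + lam a q c I i₁ • c) ⬝ᵥ ee a I' m ∧
        ((q + lam a q c I i₁ • c) ⬝ᵥ ee a I' m = 0 → 0 < c ⬝ᵥ ee a I' m) := by
  classical
  set S : Finset (Fin n) := I.filter fun m => c ⬝ᵥ ee a I m < 0 with hS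
  have hSne : S.Nonempty := by
    push Not at hnot
    obtain ⟨m, hm, hm'⟩ := hnot
    exact ⟨m, mem_filter.2 ⟨hm, hm'⟩⟩
  obtain ⟨i₁, h1S, hmin⟩ := exists_min_image S (fun m => lam a q c I m) hSne
  have h₁ : i₁ ∈ I := (mem_filter.1 h1S).1
  have hb1 : c ⬝ᵥ ee a I i₁ < 0 := (mem_filter.1 h1S).2
  have hlin : ∀ (l' : ℝ) (v : Fin d → ℝ), (q + l' • c) ⬝ᵥ v = q ⬝ᵥ v + l' * (c ⬝ᵥ v) := by
    intro l' v
    rw [add_dotProduct, smul_dotProduct, smul_eq_mul]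
  -- the parameter is larger than `l`
  have hlt : ∀ m ∈ S, l < lam a q c I m := by
    intro m hm
    have hmI : m ∈ I := (mem_filter.1 hm).1
    have hb : c ⬝ᵥ ee a I m < 0 := (mem_filter.1 hm).2
    obtain ⟨h0, h0'⟩ := hinv m hmI
    have hpos : 0 < (q + l • c) ⬝ᵥ ee a I m := by
      refine lt_of_le_of_ne h0 fun h => ?_
      have := h0' h.symm
      linarith
    rw [hlin] at hpos
    rw [lam, lt_div_iff₀ (by linarith)]
    linarith
  set L : ℝ := lam a q c I i₁ with hL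
  have hLl : l < L := hlt i₁ h1S
  have hLe : (q + L • c) ⬝ᵥ ee a I i₁ = 0 := by
    have h0 : -(c ⬝ᵥ ee a I i₁) ≠ 0 := by
      intro h
      linarith
    have h1 : L * (-(c ⬝ᵥ ee a I i₁)) = q ⬝ᵥ ee a I i₁ := by
      rw [hL, lam]
      exact div_mul_cancel₀ _ h0
    rw [hlin]
    linarith
  have hq1 : 0 < q ⬝ᵥ ee a I i₁ := by
    rw [hlin] at hLe
    have : L * (c ⬝ᵥ ee a I i₁) < 0 := mul_neg_of_pos_of_neg (by linarith) hb1
    linarith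
  have hothers : ∀ m ∈ I, m ≠ i₁ → 0 < (q + L • c) ⬝ᵥ ee a I m := by
    intro m hm hne
    rw [hlin]
    rcases lt_or_ge (c ⬝ᵥ ee a I m) 0 with hb | hb
    · have h1 : L ≤ lam a q c I m := hmin m (mem_filter.2 ⟨hm, hb⟩)
      have h2 : L ≠ lam a q c I m := ht I hI i₁ h₁ m hm (Ne.symm hne) hb1 hb
      have h3 : L < lam a q c I m := lt_of_le_of_ne h1 h2
      rw [lam, lt_div_iff₀ (by linarith)] at h3
      linarith
    · obtain ⟨h0, h0'⟩ := hinv m hm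
      rw [hlin] at h0 h0'
      rcases eq_or_lt_of_le hb with hb0 | hb0
      · rw [← hb0] at h0 h0' ⊢
        have : q ⬝ᵥ ee a I m + l * 0 ≠ 0 := fun h => lt_irrefl 0 (h0' h)
        have h4 := lt_of_le_of_ne h0 (Ne.symm this)
        linarith
      · have h5 : l * (c ⬝ᵥ ee a I m) < L * (c ⬝ᵥ ee a I m) := mul_lt_mul_of_pos_right hLl hb0
        linarith
  obtain ⟨i₂, h2I, hneg, hI', hx'⟩ := exists_pivot (a := a) hI h₁ hw (hc ▸ hb1)
  refine ⟨i₁, ⟨hI, h₁, hq1, hb1, hothers⟩, hLl, insert i₂ (I.erase i₁), adj_pivot hI hI' h₁ h2I, ?_⟩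
  intro m hm
  have hne : a i₂ ⬝ᵥ ee a I i₁ ≠ 0 := ne_of_lt hneg
  have hP := isDual_pivot hI.1 h₁ h2I hne
  rw [hP.ee_eq hm]
  by_cases hm2 : m = i₂
  · subst hm2
    rw [if_pos rfl, dotProduct_smul, hLe, smul_zero]
    refine ⟨le_rfl, fun _ => ?_⟩
    rw [dotProduct_smul, smul_eq_mul]
    exact mul_pos_of_neg_of_neg (inv_lt_zero.2 hneg) hb1
  · rw [if_neg hm2, dotProduct_sub, dotProduct_smul, hLe, smul_zero, sub_zero]
    have hmI : m ∈ I.erase i₁ := (mem_insert.1 hm).resolve_left hm2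
    have h6 := hothers m (mem_of_mem_erase hmI) (ne_of_mem_erase hmI)
    exact ⟨h6.le, fun h => absurd h (ne_of_gt h6)⟩

/-- The induction for the parametric simplex path. -/
theorem path_aux {a : Fin n → Fin d → ℝ} {w : Fin n → ℝ} (hw : ∀ i, 0 < w i)
    {q c : Fin d → ℝ} (hc : c = ∑ i, w i • a i) (ht : NoTie a q c) (N : ℕ) :
    ∀ I, IsV a I → ∀ l : ℝ, 0 ≤ l →
      (∀ m ∈ I, 0 ≤ (q + l • c) ⬝ᵥ ee a I m ∧
        ((q + l • c) ⬝ᵥ ee a I m = 0 → 0 < c ⬝ᵥ ee a I m)) →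
      {p ∈ FF a q c | l < lam a q c p.1 p.2}.ncard ≤ N →
      ∃ R, IsV a R ∧ (∀ m ∈ R, 0 ≤ c ⬝ᵥ ee a R m) ∧ (baseGraph a).edist I R ≤ N := by
  classical
  have hfin : ∀ l : ℝ, {p ∈ FF a q c | l < lam a q c p.1 p.2}.Finite := fun l => Set.toFinite _
  induction N with
  | zero =>
    intro I hI l hl hinv hcard
    by_cases hall : ∀ m ∈ I, 0 ≤ c ⬝ᵥ ee a I m
    · exact ⟨I, hI, hall, by simp⟩
    · exfalso
      obtain ⟨i₁, hF, hlt, -⟩ := path_step hw hc ht hI hl hinv hall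
      have h0 := (Set.ncard_eq_zero (hfin l)).1 (Nat.le_zero.1 hcard)
      have : (I, i₁) ∈ {p ∈ FF a q c | l < lam a q c p.1 p.2} := ⟨hF, hlt⟩
      rw [h0] at this
      exact this
  | succ N ih =>
    intro I hI l hl hinv hcard
    by_cases hall : ∀ m ∈ I, 0 ≤ c ⬝ᵥ ee a I m
    · exact ⟨I, hI, hall, by simp⟩
    · obtain ⟨i₁, hF, hlt, I', hadj, hinv'⟩ := path_step hw hc ht hI hl hinv hall
      have hcard' : {p ∈ FF a q c | lam a q c I i₁ < lam a q c p.1 p.2}.ncard ≤ N := by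
        have hss : {p ∈ FF a q c | lam a q c I i₁ < lam a q c p.1 p.2}
            ⊂ {p ∈ FF a q c | l < lam a q c p.1 p.2} := by
          refine ⟨fun p hp => ⟨hp.1, hlt.trans hp.2⟩, fun h => ?_⟩
          have h1 : (I, i₁) ∈ {p ∈ FF a q c | lam a q c I i₁ < lam a q c p.1 p.2} := h ⟨hF, hlt⟩
          exact lt_irrefl _ h1.2
        have := Set.ncard_lt_ncard hss (hfin l)
        omega
      obtain ⟨R, hR, hR', hd⟩ := ih I' hadj.2.1 _ (hl.trans hlt.le) hinv' hcard'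
      refine ⟨R, hR, hR', ?_⟩
      have h1 : (baseGraph a).edist I I' ≤ 1 := by
        have := SimpleGraph.edist_eq_one_iff_adj.2 hadj
        exact this.le
      calc (baseGraph a).edist I R ≤ (baseGraph a).edist I I' + (baseGraph a).edist I' R :=
            SimpleGraph.edist_triangle
        _ ≤ 1 + N := add_le_add h1 hd
        _ = ((N + 1 : ℕ) : ℕ∞) := by
            push_cast
            rw [add_comm]

/-- STEP 0: the parametric path lemma. -/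
theorem path_lemma {a : Fin n → Fin d → ℝ} {w : Fin n → ℝ} (hw : ∀ i, 0 < w i)
    {q c : Fin d → ℝ} (hc : c = ∑ i, w i • a i) (ht : NoTie a q c) {B : Finset (Fin n)}
    (hB : IsV a B) (hq : ∀ m ∈ B, 0 < q ⬝ᵥ ee a B m) :
    ∃ R, IsV a R ∧ (∀ m ∈ R, 0 ≤ c ⬝ᵥ ee a R m) ∧
      (baseGraph a).edist B R ≤ (FF a q c).ncard := by
  refine path_aux hw hc ht _ B hB 0 le_rfl ?_ ?_
  · intro m hm
    rw [zero_smul, add_zero]
    exact ⟨(hq m hm).le, fun h => absurd h (ne_of_gt (hq m hm))⟩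
  · exact Set.ncard_le_ncard (fun p hp => hp.1) (Set.toFinite _)

/-- `x_R` maximizes `c` over the polyhedron. -/
theorem dot_le_of_opt {a : Fin n → Fin d → ℝ} {R : Finset (Fin n)} (hR : HasDual a R)
    {c : Fin d → ℝ} (hopt : ∀ m ∈ R, 0 ≤ c ⬝ᵥ ee a R m) {x : Fin d → ℝ}
    (hx : ∀ i, a i ⬝ᵥ x ≤ 1) : c ⬝ᵥ x ≤ c ⬝ᵥ xx a R := by
  rw [hR.isDual.dot c x, xx, dotProduct_sum]
  refine sum_le_sum fun m hm => ?_
  calc c ⬝ᵥ ee a R m * a m ⬝ᵥ x ≤ c ⬝ᵥ ee a R m * 1 :=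
        mul_le_mul_of_nonneg_left (hx m) (hopt m hm)
    _ = c ⬝ᵥ ee a R m := mul_one _

/-- The optimal vertex is unique if no coefficient vanishes. -/
theorem opt_unique {a : Fin n → Fin d → ℝ} (hgen : Gen a) {R R' : Finset (Fin n)} (hR : IsV a R)
    (hR' : IsV a R') {c : Fin d → ℝ} (h : ∀ m ∈ R, 0 < c ⬝ᵥ ee a R m)
    (h' : ∀ m ∈ R', 0 ≤ c ⬝ᵥ ee a R' m) : R = R' := by
  have h1 : c ⬝ᵥ xx a R = c ⬝ᵥ xx a R' := le_antisymm (dot_le_of_opt hR'.1 h' hR.2)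
    (dot_le_of_opt hR.1 (fun m hm => (h m hm).le) hR'.2)
  have h2 : ∑ m ∈ R, (c ⬝ᵥ ee a R m) * (1 - a m ⬝ᵥ xx a R') = 0 := by
    have h3 := hR.1.isDual.dot c (xx a R')
    have h4 : c ⬝ᵥ xx a R = ∑ m ∈ R, c ⬝ᵥ ee a R m := by rw [xx, dotProduct_sum]
    simp only [mul_sub, mul_one, sum_sub_distrib]
    rw [← h3, ← h4, h1, sub_self]
  have h5 : ∀ m ∈ R, a m ⬝ᵥ xx a R' = 1 := by
    intro m hm
    have h6 := (sum_eq_zero_iff_of_nonneg fun m hm =>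
      mul_nonneg (h m hm).le (by have := hR'.2 m; linarith)).1 h2 m hm
    rcases mul_eq_zero.1 h6 with h7 | h7
    · exact absurd h7 (ne_of_gt (h m hm))
    · linarith
  have hsub : R ⊆ R' := by
    intro m hm
    by_contra hcon
    exact hgen R' hR'.1 m hcon (h5 m hm)
  have hx : xx a R' = xx a R := by
    rw [hR.1.isDual.expand (xx a R'), hR.1.isDual.expand (xx a R)]
    exact sum_congr rfl fun m hm => by rw [h5 m hm, dot_xx hR.1 hm]
  have hsub' : R' ⊆ R := by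
    intro m hm
    by_contra hcon
    refine hgen R hR.1 m hcon ?_
    rw [← hx]
    exact dot_xx hR'.1 hm
  exact subset_antisymm hsub hsub'

/-- Monotonicity of the two objectives along the path. -/
theorem mono_of_opt {q c x y : Fin d → ℝ} {l l' : ℝ} (hl : 0 ≤ l) (hll : l < l')
    (hx : (q + l • c) ⬝ᵥ y ≤ (q + l • c) ⬝ᵥ x) (hy : (q + l' • c) ⬝ᵥ x ≤ (q + l' • c) ⬝ᵥ y) :
    c ⬝ᵥ x ≤ c ⬝ᵥ y ∧ q ⬝ᵥ y ≤ q ⬝ᵥ x := by
  simp only [add_dotProduct, smul_dotProduct, smul_eq_mul] at hx hy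
  have h1 : 0 ≤ (l' - l) * (c ⬝ᵥ y - c ⬝ᵥ x) := by nlinarith
  have h2 : 0 ≤ c ⬝ᵥ y - c ⬝ᵥ x := by
    by_contra hcon
    have h3 := mul_neg_of_pos_of_neg (sub_pos.2 hll) (not_le.1 hcon)
    linarith
  refine ⟨by linarith, ?_⟩
  have := mul_nonneg hl h2
  linarith

end Pool.Agent.H.MP_0cad2f_co.h39
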