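import Mathlib

set_option autoImplicit false

/-!
Change of variables by finitely many affine maps with disjoint images.
-/

namespace Pool.Agent.H.MP_0cad2f_co.h39

open MeasureTheory

variable {E : Type*} [NormedAddCommGroup E] [NormedSpace ℝ E] [FiniteDimensional ℝ E]
  [MeasurableSpace E] [BorelSpace E] (mu : Measure E) [mu.IsAddHaarMeasure]

/-- One affine map `x ↦ L x + v` which is injective. -/
theorem lintegral_affine_image (L : E →ₗ[ℝ] E) (hL : LinearMap.det L ≠ 0) (v : E) {A : Set E}
    (hA : MeasurableSet A) (g : E → ENNReal) :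
    ∫⁻ x in (fun x => L x + v) '' A, g x ∂mu
      = ENNReal.ofReal |LinearMap.det L| * ∫⁻ x in A, g (L x + v) ∂mu := by
  have hinj : Function.Injective L := by
    have h := LinearMap.ker_eq_bot.1 (LinearMap.ker_eq_bot_of_injective
      ((LinearMap.equivOfDetNeZero L hL).injective))
    exact h
  have hd : ∀ x ∈ A, HasFDerivWithinAt (fun x => L x + v) (LinearMap.toContinuousLinearMap L) A x := by
    intro x _
    exact ((LinearMap.toContinuousLinearMap L).hasFDerivAt.add_const v).hasFDerivWithinAt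
  have hi : Set.InjOn (fun x => L x + v) A := by
    intro x _ y _ hxy
    exact hinj (add_right_cancel hxy)
  have h := lintegral_image_eq_lintegral_abs_det_fderiv_mul mu hA hd hi g
  rw [h, ← lintegral_const_mul' _ _ ENNReal.ofReal_ne_top]
  rfl

/-- `K` affine maps with pairwise disjoint images inside `F`. -/
theorem lintegral_disjoint_images {ι : Type*} [Fintype ι] (L : ι → E →ₗ[ℝ] E) (v : ι → E)
    {A F : Set E} (hA : MeasurableSet A) (f g : E → ENNReal) (J : ENNReal) (c : ENNReal)
    (hdet0 : ∀ j, LinearMap.det (L j) ≠ 0)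
    (hdet : ∀ j, J ≤ ENNReal.ofReal |LinearMap.det (L j)|)
    (hmaps : ∀ j, ∀ x ∈ A, L j x + v j ∈ F)
    (hdisj : Pairwise fun i j => Disjoint ((fun x => L i x + v i) '' A) ((fun x => L j x + v j) '' A))
    (hfg : ∀ j, ∀ x ∈ A, c * f x ≤ g (L j x + v j)) :
    (Fintype.card ι : ENNReal) * (J * (c * ∫⁻ x in A, f x ∂mu)) ≤ ∫⁻ x in F, g x ∂mu := by
  have hmeas : ∀ j, MeasurableSet ((fun x => L j x + v j) '' A) := by
    intro j
    have hcont : Continuous (fun x => L j x + v j) := by fun_prop
    have hinj : Function.Injective (fun x => L j x + v j) := by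
      intro x y hxy
      exact (LinearMap.equivOfDetNeZero (L j) (hdet0 j)).injective (add_right_cancel hxy)
    exact hA.image_of_continuousOn_injOn hcont.continuousOn hinj.injOn
  calc (Fintype.card ι : ENNReal) * (J * (c * ∫⁻ x in A, f x ∂mu))
      = ∑ _j : ι, J * (c * ∫⁻ x in A, f x ∂mu) := by
        rw [Finset.sum_const, Finset.card_univ, nsmul_eq_mul]
    _ ≤ ∑ j : ι, ∫⁻ x in (fun x => L j x + v j) '' A, g x ∂mu := by
        refine Finset.sum_le_sum fun j _ => ?_
        rw [lintegral_affine_image mu (L j) (hdet0 j) (v j) hA g]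
        refine mul_le_mul' (hdet j) ?_
        calc c * ∫⁻ x in A, f x ∂mu ≤ ∫⁻ x in A, c * f x ∂mu := lintegral_const_mul_le _ _
          _ ≤ ∫⁻ x in A, g (L j x + v j) ∂mu := setLIntegral_mono' hA (hfg j)
    _ = ∫⁻ x in ⋃ j, (fun x => L j x + v j) '' A, g x ∂mu := by
        rw [lintegral_iUnion hmeas hdisj, tsum_fintype]
    _ ≤ ∫⁻ x in F, g x ∂mu := by
        refine lintegral_mono_set ?_
        rintro y hy
        obtain ⟨j, x, hx, rfl⟩ := Set.mem_iUnion.1 hy
        exact hmaps j x hx

end Pool.Agent.H.MP_0cad2f_co.h39
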