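import Mathlib

set_option autoImplicit false

/-!
Change of variables in one coordinate of a product: `x_i ↦ α x_i + ψ(x)`, `ψ` not depending on `x_i`.
-/

namespace Pool.Agent.H.MP_0cad2f_co.h39

open MeasureTheory Function

variable {ι : Type*} [Fintype ι] [DecidableEq ι] {V : Type*} [NormedAddCommGroup V]
  [NormedSpace ℝ V] [FiniteDimensional ℝ V] [MeasurableSpace V] [BorelSpace V]
  (mu : Measure V) [mu.IsAddHaarMeasure]

/-- `∫ g(α t + b) dt = |α|^{-dim} ∫ g`. -/
theorem lintegral_smul_add (α : ℝ) (hα : α ≠ 0) (b : V) (g : V → ENNReal) :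
    ENNReal.ofReal (|α| ^ Module.finrank ℝ V) * ∫⁻ t, g (α • t + b) ∂mu = ∫⁻ t, g t ∂mu := by
  have h1 : ∫⁻ t, g t ∂mu = ∫⁻ t, g (t + b) ∂mu :=
    (lintegral_add_right_eq_self g b).symm
  have h2 : Measure.map (fun t : V => α • t) mu
      = ENNReal.ofReal |(α ^ Module.finrank ℝ V)⁻¹| • mu := Measure.map_addHaar_smul mu hα
  have hemb : MeasurableEmbedding (fun t : V => α • t) := measurableEmbedding_const_smul₀ hα
  have h3 : ∫⁻ t, g (α • t + b) ∂mu = ENNReal.ofReal |(α ^ Module.finrank ℝ V)⁻¹| * ∫⁻ t, g (t + b) ∂mu := by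
    have h := hemb.lintegral_map (fun t => g (t + b)) (μ := mu)
    rw [← h, h2, lintegral_smul_measure, smul_eq_mul]
  rw [h1, h3, ← mul_assoc, ← ENNReal.ofReal_mul (by positivity)]
  have h4 : |α| ^ Module.finrank ℝ V * |(α ^ Module.finrank ℝ V)⁻¹| = 1 := by
    rw [abs_inv, abs_pow]
    exact mul_inv_cancel₀ (pow_ne_zero _ (abs_ne_zero.2 hα))
  rw [h4, ENNReal.ofReal_one, one_mul]

/-- The change of variables `x_i ↦ α x_i + ψ(x)` in a product. -/
theorem lintegral_update (i : ι) (α : ℝ) (hα : α ≠ 0) (ψ : (ι → V) → V) (hψm : Measurable ψ)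
    (hψ : ∀ x t, ψ (update x i t) = ψ x) (g : (ι → V) → ENNReal) (hg : Measurable g) :
    ENNReal.ofReal (|α| ^ Module.finrank ℝ V) *
        ∫⁻ x, g (update x i (α • x i + ψ x)) ∂(Measure.pi fun _ => mu)
      = ∫⁻ x, g x ∂(Measure.pi fun _ => mu) := by
  have hm : Measurable fun x : ι → V => update x i (α • x i + ψ x) := by
    have h0 : Measurable fun x : ι → V => α • x i + ψ x :=
      ((measurable_pi_apply i).const_smul α).add hψm
    refine measurable_pi_lambda _ fun j => ?_
    by_cases hj : j = i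
    · subst hj
      simpa [update_self] using h0
    · simpa [update_of_ne hj] using measurable_pi_apply j
  have hgm : Measurable fun x : ι → V => g (update x i (α • x i + ψ x)) := hg.comp hm
  rw [← lintegral_const_mul _ hgm]
  refine lintegral_eq_of_lmarginal_eq {i} (hgm.const_mul _) hg ?_
  funext x
  rw [lmarginal_singleton, lmarginal_singleton]
  have h1 : ∀ t : V, update (update x i t) i (α • (update x i t) i + ψ (update x i t))
      = update x i (α • t + ψ x) := by
    intro t
    rw [hψ, update_self, update_idem]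
  simp only [h1]
  have hmg : Measurable fun t : V => g (update x i (α • t + ψ x)) := by
    refine hg.comp ((measurable_update x).comp ?_)
    exact (measurable_const_smul α).add_const _
  rw [lintegral_const_mul _ hmg]
  exact lintegral_smul_add mu α hα (ψ x) (fun t => g (update x i t))

end Pool.Agent.H.MP_0cad2f_co.h39
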